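import Pool.Agent.H.MP_24f62a_co.Win

set_option autoImplicit false

namespace Pool.Agent.Results.MP_24f62a_co.Yes

/-- edges of `K_n` claimed by neither player -/
def free {n : ℕ} (p : Finset (Sym2 (Fin n)) × Finset (Sym2 (Fin n))) : Finset (Sym2 (Fin n)) :=
  (Finset.univ.filter fun e : Sym2 (Fin n) => ¬ e.IsDiag) \ (p.1 ∪ p.2)

/-- any two cycles have the same edges -/
def AtMostOneCycle {V : Type} (G : SimpleGraph V) : Prop :=
  ∀ (u v : V) (c : G.Walk u u) (d : G.Walk v v), c.IsCycle → d.IsCycle →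
    ∀ e, e ∈ c.edges ↔ e ∈ d.edges

/-- Avoider has a winning strategy under strict rules -/
def StrictWin (n b : ℕ) : Prop :=
  ∃ S : Set (Finset (Sym2 (Fin n)) × Finset (Sym2 (Fin n))), (∅, ∅) ∈ S ∧ ∀ p ∈ S,
    (free p = ∅ → AtMostOneCycle (SimpleGraph.fromEdgeSet (p.1 : Set (Sym2 (Fin n))))) ∧
    (free p ≠ ∅ → ∃ e ∈ free p, ∀ T ⊆ (free p).erase e,
      T.card = min b ((free p).erase e).card → (insert e p.1, p.2 ∪ T) ∈ S)

/-- Avoider has a winning strategy under monotone rules -/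
def MonotoneWin (n b : ℕ) : Prop :=
  ∃ S : Set (Finset (Sym2 (Fin n)) × Finset (Sym2 (Fin n))), (∅, ∅) ∈ S ∧ ∀ p ∈ S,
    (free p = ∅ → AtMostOneCycle (SimpleGraph.fromEdgeSet (p.1 : Set (Sym2 (Fin n))))) ∧
    (free p ≠ ∅ → ∃ R ⊆ free p, R.Nonempty ∧ ∀ T ⊆ free p \ R,
      min b (free p \ R).card ≤ T.card → (p.1 ∪ R, p.2 ∪ T) ∈ S)

theorem result (n b : ℕ) (hb : 288 * n ≤ b) : StrictWin n b ∧ MonotoneWin n b := by
  have hE : (Finset.univ.filter fun e : Sym2 (Fin n) => ¬ e.IsDiag).card ≤ n ^ 2 := by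
    have e1 : (Finset.univ.filter fun e : Sym2 (Fin n) => ¬ e.IsDiag) =
        (⊤ : SimpleGraph (Fin n)).edgeFinset := by
      ext e
      simp
    rw [e1, SimpleGraph.card_edgeFinset_top_eq_card_choose_two, Fintype.card_fin]
    exact Nat.choose_le_pow n 2
  obtain ⟨S, h0, hS⟩ := Pool.Agent.H.MP_24f62a_co.win _ hE b hb
  have hend : ∀ p ∈ S, free p = ∅ →
      AtMostOneCycle (SimpleGraph.fromEdgeSet (p.1 : Set (Sym2 (Fin n)))) := by
    intro p hp h u v c d hc hd e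
    obtain ⟨F, hF, h1 | ⟨x, y, h1⟩⟩ := (hS p hp).1 h
    · exact absurd hc ((h1 ▸ hF : (SimpleGraph.fromEdgeSet (p.1 : Set (Sym2 (Fin n)))).IsAcyclic) c)
    · exact ⟨Pool.Agent.H.MP_24f62a_co.one_cycle F hF x y _ h1 c d hc hd e,
        Pool.Agent.H.MP_24f62a_co.one_cycle F hF x y _ h1 d c hd hc e⟩
  refine ⟨⟨S, h0, fun p hp => ⟨hend p hp, fun h => ?_⟩⟩, ⟨S, h0, fun p hp => ⟨hend p hp, fun h => ?_⟩⟩⟩
  · obtain ⟨e, he, h1⟩ := (hS p hp).2 h
    exact ⟨e, he, fun T hT hc => h1 T hT hc.ge⟩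
  · obtain ⟨e, he, h1⟩ := (hS p hp).2 h
    refine ⟨{e}, Finset.singleton_subset_iff.mpr he, Finset.singleton_nonempty e, fun T hT hc => ?_⟩
    rw [Finset.sdiff_singleton_eq_erase] at hT hc
    rw [Finset.union_comm, ← Finset.insert_eq]
    exact h1 T hT hc

end Pool.Agent.Results.MP_24f62a_co.Yes
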